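import Pool.Agent.Y745.ZR.Meas
import Pool.Agent.Y745.SW.DefsB
import Pool.Agent.H370R2.Local

set_option autoImplicit false

/-! Few isolated zeros `ρ` on the critical line have a small value `|ζ(2 ρ)|`. -/

namespace Pool.Agent.Y745.ZR

open Complex MeasureTheory Filter Topology Set
open Pool.Agent.TH612.GS Pool.Agent.TH811.GS Pool.Agent.Y745.SW H370

noncomputable section

lemma zN_lip {X : ℕ} (v v' : ℝ) : ‖zN X (1 + I * v) - zN X (1 + I * v')‖ ≤
    |v - v'| * Real.log X * (1 + Real.log X) := by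
  unfold zN
  rw [← Finset.sum_sub_distrib]
  calc ‖∑ n ∈ Finset.Icc 1 X, ((n : ℂ) ^ (-(1 + I * (v : ℂ))) - (n : ℂ) ^ (-(1 + I * (v' : ℂ))))‖
      ≤ ∑ n ∈ Finset.Icc 1 X, (|v - v'| * Real.log X) * (n : ℝ)⁻¹ := by
        refine norm_sum_le_of_le _ fun n hn => ?_
        rw [Finset.mem_Icc] at hn
        have hn0 : (n : ℂ) ≠ 0 := by
          have : n ≠ 0 := by omega
          exact_mod_cast this
        have hnr : (0:ℝ) < n := by exact_mod_cast hn.1
        have e1 : (n : ℂ) ^ (-(1 + I * (v : ℂ))) - (n : ℂ) ^ (-(1 + I * (v' : ℂ))) =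
            (n : ℂ) ^ (-(1 + I * (v' : ℂ))) * (cexp (I * ((-(v - v') * Real.log n : ℝ) : ℂ)) - 1) := by
          rw [mul_sub, mul_one]
          congr 1
          rw [Complex.cpow_def_of_ne_zero hn0, Complex.cpow_def_of_ne_zero hn0, ← Complex.exp_add,
            ← Complex.natCast_log]
          congr 1
          push_cast
          ring
        rw [e1, norm_mul, norm_term hn.1]
        have h1 := Real.norm_exp_I_mul_ofReal_sub_one_le (x := -(v - v') * Real.log n)
        have h2 : ‖-(v - v') * Real.log n‖ ≤ |v - v'| * Real.log X := by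
          rw [norm_mul, norm_neg, Real.norm_eq_abs, Real.norm_of_nonneg (Real.log_natCast_nonneg n)]
          refine mul_le_mul_of_nonneg_left ?_ (abs_nonneg _)
          exact Real.log_le_log hnr (by exact_mod_cast hn.2)
        rw [mul_comm]
        exact mul_le_mul_of_nonneg_right (h1.trans h2) (by positivity)
    _ = (|v - v'| * Real.log X) * ∑ n ∈ Finset.Icc 1 X, (n : ℝ)⁻¹ := by rw [Finset.mul_sum]
    _ ≤ _ := mul_le_mul_of_nonneg_left (harm_le X)
        (mul_nonneg (abs_nonneg _) (Real.log_natCast_nonneg X))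

open Classical in
/-- few isolated zeros with a small value at `2 ρ` -/
theorem bad_zeros (B ε δ : ℝ) (hB : 0 < B) (hε : 0 < ε) (hε1 : ε ≤ 1) (hδ : 0 < δ) : ∀ᶠ T : ℝ in atTop,
    ∀ U1 U2 : ℝ, T ≤ U1 → U2 ≤ 2 * T →
      (((isoS U1 U2 (δ / Real.log T)).filter (fun s => T + 2 ≤ s.im ∧ s.im ≤ 2 * T - 2 ∧
        (‖riemannZeta (2 * s)‖ < Real.log (4 * T) ^ (-ε) ∨ Real.log (4 * T) ^ ε < ‖riemannZeta (2 * s)‖))).card : ℝ) ≤
          T * Real.log T ^ (-B) := by
  have hm := (tendsto_id.const_mul_atTop (show (0:ℝ) < 4 by norm_num)).eventually (meas_ex (B + 4) ε (by linarith) hε)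
  have hlog := Real.tendsto_log_atTop
  filter_upwards [hm, hlog.eventually ((tendsto_rpow_atTop hε).eventually_ge_atTop 2),
    hlog.eventually_ge_atTop (4 / δ), hlog.eventually_ge_atTop 20, eventually_ge_atTop (20:ℝ),
    Real.isLittleO_log_id_atTop.bound (show (0:ℝ) < 1 / 100 by norm_num)] with T g1 g2 gδ gL gT glT
  simp only [id] at g1 glT
  intro U1 U2 hU1 hU2
  set L := Real.log T with hL
  set L4 := Real.log (4 * T) with hL4
  have hT0 : 0 < T := by linarith
  have hL0 : 0 < L := by linarith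
  have hLL4 : L ≤ L4 := Real.log_le_log hT0 (by linarith)
  have hL40 : 0 < L4 := by linarith
  have hL42 : L4 ≤ 2 * L := by
    have h1 : L4 = Real.log 4 + L := Real.log_mul (by norm_num) hT0.ne'
    have h2 : Real.log 4 ≤ 3 := by
      have := Real.log_le_sub_one_of_pos (show (0:ℝ) < 4 by norm_num)
      linarith
    linarith
  rw [Real.norm_of_nonneg hL0.le, Real.norm_of_nonneg hT0.le] at glT
  set r : ℝ := (L4 ^ 4)⁻¹ with hr
  have hr0 : 0 < r := by positivity
  have hL4ε : 2 ≤ L4 ^ ε := g2.trans (Real.rpow_le_rpow hL0.le hLL4 hε.le)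
  set F := (isoS U1 U2 (δ / L)).filter (fun s => T + 2 ≤ s.im ∧ s.im ≤ 2 * T - 2 ∧
        (‖riemannZeta (2 * s)‖ < L4 ^ (-ε) ∨ L4 ^ ε < ‖riemannZeta (2 * s)‖)) with hF
  have hr1 : r ≤ 1 / 100 := by
    rw [hr, inv_le_comm₀ (by positivity) (by norm_num)]
    have : (20:ℝ) ^ 4 ≤ L4 ^ 4 := pow_le_pow_left₀ (by norm_num) (by linarith) 4
    norm_num at this ⊢
    linarith
  -- the intervals are disjoint
  have hdisj : (F : Set ℂ).PairwiseDisjoint (fun s => Icc (2 * s.im - 2 * r) (2 * s.im + 2 * r)) := by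
    intro s hs s' hs' hne
    rw [Finset.mem_coe, hF, Finset.mem_filter] at hs hs'
    have h1 := hs.1
    have h2 := hs'.1
    unfold isoS at h1 h2
    rw [Finset.mem_filter] at h1 h2
    have h3 := h1.2.2.2 s' h2.1 (Ne.symm hne)
    have h4 : ‖s - s'‖ = |s.im - s'.im| := by
      have : s - s' = ((s.im - s'.im : ℝ) : ℂ) * I := by
        apply Complex.ext
        · simp [h1.2.1, h2.2.1]
        · simp
      rw [this, norm_mul, Complex.norm_I, mul_one, Complex.norm_real, Real.norm_eq_abs]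
    rw [h4] at h3
    have h5 : 2 * r < δ / L := by
      rw [hr, lt_div_iff₀ hL0]
      have h6 : 4 ≤ δ * L := by
        rw [div_le_iff₀ hδ] at gδ
        linarith
      have h7 : 2 * (L4 ^ 4)⁻¹ * L ≤ 2 * (L4 ^ 3)⁻¹ := by
        calc 2 * (L4 ^ 4)⁻¹ * L ≤ 2 * (L4 ^ 4)⁻¹ * L4 := mul_le_mul_of_nonneg_left hLL4 (by positivity)
          _ = _ := by field_simp
      have h8 : 2 * (L4 ^ 3)⁻¹ < δ := by
        rw [← div_eq_mul_inv, div_lt_iff₀ (by positivity)]
        have h9 : δ * L ≤ δ * L4 ^ 3 := by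
          refine mul_le_mul_of_nonneg_left ?_ hδ.le
          calc L ≤ L4 := hLL4
            _ = L4 ^ 1 := (pow_one _).symm
            _ ≤ L4 ^ 3 := pow_le_pow_right₀ (by linarith) (by norm_num)
        linarith
      linarith
    rw [Function.onFun, Set.disjoint_left]
    rintro x ⟨hx1, hx2⟩ ⟨hx3, hx4⟩
    have h6 : |s.im - s'.im| ≤ 2 * r := by
      rw [abs_le]
      constructor <;> linarith
    linarith
  -- they lie in the exceptional set
  set X : ℕ := ⌊(4 * T) ^ 2⌋₊ with hX
  have hXle : (X : ℝ) ≤ (4 * T) ^ 2 := Nat.floor_le (by positivity)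
  have hXlt : (4 * T) ^ 2 < (X : ℝ) + 1 := Nat.lt_floor_add_one _
  have hX1 : (4 * T) ^ 2 / 2 ≤ (X : ℝ) - 1 := by nlinarith
  have hX0 : (0 : ℝ) < X := by nlinarith
  have hlogX : Real.log X ≤ 2 * L4 := by
    have h := Real.log_le_log hX0 hXle
    rw [Real.log_pow] at h
    push_cast at h
    exact h
  have hlogX0 : 0 ≤ Real.log X := Real.log_natCast_nonneg X
  have hsub : (⋃ s ∈ F, Icc (2 * s.im - 2 * r) (2 * s.im + 2 * r)) ⊆ Ex ε (4 * T) := by
    intro v hv
    rw [Set.mem_iUnion₂] at hv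
    obtain ⟨s, hs, hv1, hv2⟩ := hv
    rw [hF, Finset.mem_filter] at hs
    obtain ⟨hs1, hs2, hs3, hs4⟩ := hs
    unfold isoS at hs1
    rw [Finset.mem_filter] at hs1
    have hre := hs1.2.1
    have e2 : 2 * s = 1 + I * ((2 * s.im : ℝ) : ℂ) := by
      apply Complex.ext
      · simp [hre]
      · simp
    have hv3 : 2 * T ≤ v := by linarith
    have hv4 : v ≤ 4 * T := by linarith
    have hv5 : |v| = v := abs_of_pos (by linarith)
    have hw5 : |2 * s.im| = 2 * s.im := abs_of_pos (by linarith)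
    have ha1 := approx (T := 4 * T) (X := X) (by linarith) hX1 (v := v) (by rw [hv5]; linarith) (by rw [hv5]; linarith)
    have ha2 := approx (T := 4 * T) (X := X) (by linarith) hX1 (v := 2 * s.im) (by rw [hw5]; linarith)
      (by rw [hw5]; linarith)
    have hl := zN_lip (X := X) v (2 * s.im)
    refine ⟨⟨?_, hv4⟩, ?_⟩
    · have h1 : (4 * T) ^ (1 / 2 : ℝ) ≤ 2 * T := by
        rw [← Real.sqrt_eq_rpow]
        apply Real.sqrt_le_iff.2
        constructor
        · linarith
        · nlinarith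
      linarith
    · rw [← hL4]
      have hvs : |v - 2 * s.im| ≤ 2 * r := by
        rw [abs_le]
        constructor <;> linarith
      have hl2 : ‖zN X (1 + I * v) - zN X (1 + I * ((2 * s.im : ℝ) : ℂ))‖ ≤ 12 * (L4 ^ 2)⁻¹ := by
        refine hl.trans ?_
        calc |v - 2 * s.im| * Real.log X * (1 + Real.log X) ≤ (2 * r) * (2 * L4) * (3 * L4) := by
              refine mul_le_mul (mul_le_mul hvs hlogX hlogX0 (by positivity)) (by linarith) (by linarith)
                (by positivity)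
          _ = 12 * (L4 ^ 2)⁻¹ := by rw [hr]; field_simp; norm_num
      have hb : ∀ x : ℝ, 2 * T ≤ x → 1 / x + 3 / (4 * T) ≤ 2 / T := by
        intro x hx
        have h1 : 1 / x ≤ 1 / (2 * T) := one_div_le_one_div_of_le (by linarith) hx
        have h2 : 1 / (2 * T) + 3 / (4 * T) ≤ 2 / T := by
          rw [div_add_div _ _ (by positivity) (by positivity), div_le_div_iff₀ (by positivity) hT0]
          nlinarith
        linarith
      rw [hv5] at ha1
      rw [hw5] at ha2
      have hb1 := hb v hv3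
      have hb2 := hb (2 * s.im) (by linarith)
      rw [e2] at hs4
      have h5 : 0 < L4⁻¹ := by positivity
      have hT2 : 4 / T ≤ 1 / 10 * L4⁻¹ := by
        rw [div_le_iff₀ hT0]
        have h2 : 1 / 10 * L4⁻¹ * T = T / (10 * L4) := by field_simp
        rw [h2, le_div_iff₀ (by positivity)]
        linarith
      have hT3 : 12 * (L4 ^ 2)⁻¹ ≤ 6 / 10 * L4⁻¹ := by
        have h1 : (L4 ^ 2)⁻¹ = L4⁻¹ * L4⁻¹ := by rw [sq, mul_inv]
        have h2 : L4⁻¹ ≤ 1 / 20 := by
          rw [inv_le_comm₀ hL40 (by norm_num)]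
          norm_num
          linarith
        rw [h1]
        nlinarith
      have hp : L4⁻¹ ≤ L4 ^ (-ε) := by
        rw [← Real.rpow_neg_one]
        exact Real.rpow_le_rpow_of_exponent_le (by linarith) (by linarith)
      set z := riemannZeta (1 + I * (v : ℂ)) with hz
      set z' := riemannZeta (1 + I * ((2 * s.im : ℝ) : ℂ)) with hz'
      set n := zN X (1 + I * v) with hn
      set n' := zN X (1 + I * ((2 * s.im : ℝ) : ℂ)) with hn'
      have hdiff : ‖z - z'‖ ≤ L4⁻¹ := by
        have e3 : z - z' = (z - n) + (n - n') + (n' - z') := by ring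
        have h1 : ‖z - z'‖ ≤ ‖z - n‖ + ‖n - n'‖ + ‖z' - n'‖ := by
          calc ‖z - z'‖ = ‖(z - n) + (n - n') + (n' - z')‖ := by rw [← e3]
            _ ≤ ‖(z - n) + (n - n')‖ + ‖n' - z'‖ := norm_add_le _ _
            _ ≤ (‖z - n‖ + ‖n - n'‖) + ‖n' - z'‖ := by gcongr; exact norm_add_le _ _
            _ = _ := by rw [norm_sub_rev n' z']
        have hT5 : 2 / T + 2 / T = 4 / T := by ring
        linarith
      have hL4i : L4⁻¹ ≤ 1 := inv_le_one_of_one_le₀ (by linarith)
      rcases hs4 with hs4 | hs4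
      swap
      · right
        have k1 := norm_sub_norm_le z' z
        rw [norm_sub_rev] at k1
        linarith
      left
      have k1 := norm_sub_norm_le z z'
      linarith
  have hvol : (F.card : ℝ) * (4 * r) ≤ volume.real (Ex ε (4 * T)) := by
    have h1 : volume.real (⋃ s ∈ F, Icc (2 * s.im - 2 * r) (2 * s.im + 2 * r)) = (F.card : ℝ) * (4 * r) := by
      rw [measureReal_biUnion_finset hdisj (fun s _ => measurableSet_Icc)
        (fun s _ => by rw [Real.volume_Icc]; exact ENNReal.ofReal_ne_top)]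
      rw [Finset.sum_congr rfl (g := fun _ => 4 * r) (fun s _ => by
        rw [Real.volume_real_Icc_of_le (by linarith)]; ring), Finset.sum_const, nsmul_eq_mul]
    rw [← h1]
    refine measureReal_mono hsub ?_
    refine ne_top_of_le_ne_top ?_ (measure_mono (fun v (hv : v ∈ Ex ε (4 * T)) => hv.1))
    rw [Real.volume_Icc]
    exact ENNReal.ofReal_ne_top
  have h1 := hvol.trans g1
  have h2 : L4 ^ (-(B + 4)) = L4 ^ (-B) * r := by
    rw [hr, neg_add, Real.rpow_add hL40, Real.rpow_neg hL40.le 4]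
    norm_num
  rw [h2] at h1
  have h3 : (F.card : ℝ) * (4 * r) ≤ (T * L4 ^ (-B)) * (4 * r) := by linarith
  have h4 := le_of_mul_le_mul_right h3 (by positivity)
  refine h4.trans (mul_le_mul_of_nonneg_left ?_ hT0.le)
  exact Real.rpow_le_rpow_of_nonpos hL0 hLL4 (by linarith)

end

end Pool.Agent.Y745.ZR
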