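import Pool.Agent.Y745.ZR.One

set_option autoImplicit false

/-! Small values of the zeta function on the 1-line: a measure bound. -/

namespace Pool.Agent.Y745.ZR

open Complex MeasureTheory Filter Topology Set
open Pool.Agent.TH612.GS Pool.Agent.TH811.GS

noncomputable section

/-- the exceptional set -/
def Ex (ε T : ℝ) : Set ℝ :=
  {v | v ∈ Icc (T ^ (1 / 2 : ℝ)) T ∧ (‖riemannZeta (1 + I * (v : ℂ))‖ ≤ 2 * Real.log T ^ (-ε) ∨
    1 / 2 * Real.log T ^ ε ≤ ‖riemannZeta (1 + I * (v : ℂ))‖)}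

lemma cheb {a b c : ℝ} {W : ℝ → ℝ} (hab : a ≤ b) (hW : ContinuousOn W (Icc a b)) (hW0 : ∀ v, 0 ≤ W v)
    {A : Set ℝ} (hA : ∀ v ∈ A, v ∈ Icc a b ∧ c ≤ W v) (hc : 0 < c) :
    c * volume.real A ≤ ∫ v in a..b, W v := by
  rw [intervalIntegral.integral_of_le hab, ← integral_Icc_eq_integral_Ioc]
  have hi : Integrable W (volume.restrict (Icc a b)) := hW.integrableOn_compact isCompact_Icc
  have h1 := mul_meas_ge_le_integral_of_nonneg (μ := volume.restrict (Icc a b))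
    (Filter.Eventually.of_forall hW0) hi c
  refine le_trans (mul_le_mul_of_nonneg_left ?_ hc.le) h1
  rw [measureReal_restrict_apply' measurableSet_Icc]
  refine measureReal_mono ?_ ?_
  · intro v hv
    exact ⟨(hA v hv).2, (hA v hv).1⟩
  · refine ne_top_of_le_ne_top ?_ (measure_mono Set.inter_subset_right)
    rw [Real.volume_Icc]
    exact ENNReal.ofReal_ne_top

theorem meas_ex (B ε : ℝ) (hB : 0 < B) (hε : 0 < ε) :
    ∀ᶠ T : ℝ in atTop, volume.real (Ex ε T) ≤ T * Real.log T ^ (-B) := by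
  obtain ⟨C1, T0, hC1, hT0, hONE⟩ := t_ONE Pool.Agent.TH928.GS.t_MV
  obtain ⟨C2, hC2, hMS⟩ := err_ms
  set b : ℝ := 4 * (B + 1) with hb
  have hb0 : 0 < b := by positivity
  have hlog := Real.tendsto_log_atTop
  have f2 : ∀ᶠ T : ℝ in atTop, Real.log T ^ b ≤ 1 / 2 * T ^ (1 / 4 : ℝ) := by
    have h1 := (isLittleO_log_rpow_rpow_atTop b (show (0:ℝ) < 1 / 4 by norm_num)).bound
      (show (0:ℝ) < 1 / 2 by norm_num)
    filter_upwards [h1, eventually_ge_atTop (1:ℝ)] with T h2 hT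
    rwa [Real.norm_of_nonneg (Real.rpow_nonneg (Real.log_nonneg hT) _),
      Real.norm_of_nonneg (Real.rpow_nonneg (by linarith) _)] at h2
  have f2' : ∀ᶠ T : ℝ in atTop, (2:ℝ) ≤ T ^ (1 / 4 : ℝ) :=
    (tendsto_rpow_atTop (show (0:ℝ) < 1 / 4 by norm_num)).eventually_ge_atTop 2
  have f3 : ∀ᶠ T : ℝ in atTop, b * Real.log (Real.log T) ≤ 1 / 8 * Real.log T ^ ε := by
    have h1 := (isLittleO_log_rpow_atTop hε).bound (show (0:ℝ) < 1 / (8 * b) by positivity)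
    filter_upwards [hlog.eventually h1, hlog.eventually_ge_atTop 1] with T h2 hL
    rw [Real.norm_of_nonneg (Real.log_nonneg hL), Real.norm_of_nonneg (Real.rpow_nonneg (by linarith) _)] at h2
    calc b * Real.log (Real.log T) ≤ b * (1 / (8 * b) * Real.log T ^ ε) := mul_le_mul_of_nonneg_left h2 hb0.le
      _ = _ := by field_simp
  have f3' : ∀ᶠ T : ℝ in atTop, (16:ℝ) ≤ Real.log T ^ ε :=
    ((tendsto_rpow_atTop hε).comp hlog).eventually_ge_atTop 16
  filter_upwards [f2, f2', f3, f3', hlog.eventually_ge_atTop (8 * (25 * C1 + C2)), hlog.eventually_ge_atTop 1,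
    eventually_ge_atTop T0] with T g2 g2' g3 g3' g4 gL gT
  set L := Real.log T with hL
  have hL0 : 0 < L := by linarith
  have hT3 : 3 ≤ T := hT0.trans gT
  have hTpos : 0 < T := by linarith
  set M : ℕ := ⌈L ^ b⌉₊ with hM
  have hLb1 : 1 ≤ L ^ b := Real.one_le_rpow gL hb0.le
  have hMge : L ^ b ≤ M := Nat.le_ceil _
  have hMle : (M : ℝ) ≤ L ^ b + 1 := (Nat.ceil_lt_add_one (by linarith)).le
  have hM1 : 1 ≤ M := by
    have : (1:ℝ) ≤ M := hLb1.trans hMge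
    exact_mod_cast this
  have hM1r : (1:ℝ) ≤ M := by exact_mod_cast hM1
  have hM0r : (0:ℝ) < M := by linarith
  have hMT4 : (M : ℝ) ≤ T ^ (1 / 4 : ℝ) := by linarith
  have hsq : T ^ (1 / 4 : ℝ) * T ^ (1 / 4 : ℝ) = T ^ (1 / 2 : ℝ) := by
    rw [← Real.rpow_add hTpos]; norm_num
  have hsq2 : T ^ (1 / 2 : ℝ) * T ^ (1 / 2 : ℝ) = T := by
    rw [← Real.rpow_add hTpos]; norm_num
  have hT12 : 1 ≤ T ^ (1 / 2 : ℝ) := Real.one_le_rpow (by linarith) (by norm_num)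
  have hT12T : T ^ (1 / 2 : ℝ) ≤ T := by nlinarith
  have hMT2 : (M : ℝ) ≤ T ^ (1 / 2 : ℝ) := by nlinarith
  have hM2T : (M : ℝ) ^ 2 ≤ T := by nlinarith
  obtain ⟨-, hE1⟩ := hONE T M gT hM1 hMT2
  have hE2 := hMS T M (by linarith) hM1 hM2T
  -- the size of the mollifier
  have hlogM : 1 + Real.log M ≤ 2 + b * Real.log L := by
    have h1 : Real.log M ≤ Real.log (2 * L ^ b) := Real.log_le_log hM0r (by linarith)
    rw [Real.log_mul (by norm_num) (by positivity), Real.log_rpow hL0] at h1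
    have := Real.log_two_lt_d9
    linarith
  have hlogM0 : 0 ≤ Real.log M := Real.log_nonneg hM1r
  have hLε : 0 < L ^ ε := Real.rpow_pos_of_pos hL0 _
  have hsmall : 2 * L ^ (-ε) * (1 + Real.log M) ≤ 1 / 2 := by
    rw [Real.rpow_neg hL0.le]
    have h1 : 1 + Real.log M ≤ 1 / 4 * L ^ ε := by linarith
    calc 2 * (L ^ ε)⁻¹ * (1 + Real.log M) ≤ 2 * (L ^ ε)⁻¹ * (1 / 4 * L ^ ε) :=
          mul_le_mul_of_nonneg_left h1 (by positivity)
      _ = 1 / 2 := by field_simp; norm_num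
  -- the weight
  set W : ℝ → ℝ := fun v => (1 + Real.log M) ^ 2 * ‖riemannZeta (1 + I * (v : ℂ)) - zN M (1 + I * v)‖ ^ 2 +
    ‖zN M (1 + I * v) * muN M (1 + I * v) - 1‖ ^ 2 with hW
  have hmuc : Continuous fun v : ℝ => muN M (1 + I * v) := by
    unfold muN
    refine continuous_finset_sum _ fun n hn => ?_
    rw [Finset.mem_Icc] at hn
    have hn0 : (n : ℂ) ≠ 0 := by
      have : n ≠ 0 := by omega
      exact_mod_cast this
    refine continuous_const.mul ?_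
    refine Continuous.const_cpow (by fun_prop) (Or.inl hn0)
  have hcE2 : Continuous fun v : ℝ => ‖zN M (1 + I * v) * muN M (1 + I * v) - 1‖ ^ 2 :=
    ((((cont_zN M).mul hmuc).sub continuous_const).norm).pow 2
  have hcE1 : ContinuousOn (fun v : ℝ => ‖riemannZeta (1 + I * (v : ℂ)) - zN M (1 + I * v)‖ ^ 2)
      (Icc (T ^ (1 / 2 : ℝ)) T) := by
    intro v hv
    have hv0 : 0 < v := by linarith [hv.1]
    exact ((((cont_zeta hv0).sub (cont_zN M).continuousAt).norm).pow 2).continuousWithinAt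
  have hWc : ContinuousOn W (Icc (T ^ (1 / 2 : ℝ)) T) :=
    (continuousOn_const.mul hcE1).add hcE2.continuousOn
  have hA : ∀ v ∈ Ex ε T, v ∈ Icc (T ^ (1 / 2 : ℝ)) T ∧ (1 / 8 : ℝ) ≤ W v := by
    rintro v ⟨hv1, hv2⟩
    refine ⟨hv1, ?_⟩
    have h1 := norm_muN_le M v
    set z := riemannZeta (1 + I * (v : ℂ)) with hz
    set m := muN M (1 + I * v) with hm
    set n := zN M (1 + I * v) with hn
    have hn0 : ‖n‖ ≤ 1 + Real.log M := norm_zN_le M v
    rcases hv2 with hv2 | hv2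
    swap
    · have k1 : 1 + Real.log M ≤ 1 / 4 * L ^ ε := by linarith
      have k2 := norm_sub_norm_le z n
      have k3 : 1 ≤ ‖z - n‖ := by linarith
      simp only [hW]
      rw [← hz, ← hm, ← hn]
      have k4 : 1 ≤ (1 + Real.log M) ^ 2 * ‖z - n‖ ^ 2 := by
        rw [← mul_pow]
        have : 1 ≤ (1 + Real.log M) * ‖z - n‖ := by nlinarith
        nlinarith
      nlinarith [sq_nonneg ‖n * m - 1‖]
    have h2 : ‖z * m‖ ≤ 1 / 2 := by
      rw [norm_mul]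
      refine (mul_le_mul hv2 h1 (norm_nonneg _) (by positivity)).trans hsmall
    have h3 : 1 / 2 ≤ ‖z * m - 1‖ := by
      have := norm_sub_norm_le (1 : ℂ) (z * m)
      rw [norm_one, norm_sub_rev] at this
      linarith
    have h4 : ‖z * m - 1‖ ≤ ‖z - n‖ * (1 + Real.log M) + ‖n * m - 1‖ := by
      have e : z * m - 1 = (z - n) * m + (n * m - 1) := by ring
      rw [e]
      refine (norm_add_le _ _).trans ?_
      rw [norm_mul]
      have := mul_le_mul_of_nonneg_left h1 (norm_nonneg (z - n))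
      linarith
    simp only [hW]
    rw [← hz, ← hm, ← hn]
    set x := ‖z - n‖ * (1 + Real.log M) with hx
    set y := ‖n * m - 1‖ with hy
    have h5 : (1 + Real.log M) ^ 2 * ‖z - n‖ ^ 2 = x ^ 2 := by rw [hx]; ring
    rw [h5]
    nlinarith [sq_nonneg (x - y)]
  have hmain := cheb hT12T hWc (fun v => by simp only [hW]; positivity) hA (by norm_num)
  have hi1 : IntervalIntegrable (fun v : ℝ => ‖riemannZeta (1 + I * (v : ℂ)) - zN M (1 + I * v)‖ ^ 2) volume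
      (T ^ (1 / 2 : ℝ)) T := by
    apply ContinuousOn.intervalIntegrable
    rw [Set.uIcc_of_le hT12T]
    exact hcE1
  have hi2 : IntervalIntegrable (fun v : ℝ => ‖zN M (1 + I * v) * muN M (1 + I * v) - 1‖ ^ 2) volume
      (T ^ (1 / 2 : ℝ)) T := hcE2.intervalIntegrable _ _
  have hsplit : ∫ v in (T ^ (1 / 2 : ℝ))..T, W v =
      (1 + Real.log M) ^ 2 * (∫ v in (T ^ (1 / 2 : ℝ))..T, ‖riemannZeta (1 + I * (v : ℂ)) - zN M (1 + I * v)‖ ^ 2) +
      ∫ v in (T ^ (1 / 2 : ℝ))..T, ‖zN M (1 + I * v) * muN M (1 + I * v) - 1‖ ^ 2 := by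
    rw [← intervalIntegral.integral_const_mul, ← intervalIntegral.integral_add (hi1.const_mul _) hi2]
  have hmono : ∫ v in (T ^ (1 / 2 : ℝ))..T, ‖zN M (1 + I * v) * muN M (1 + I * v) - 1‖ ^ 2 ≤
      ∫ v in (0:ℝ)..(2 * T), ‖zN M (1 + I * v) * muN M (1 + I * v) - 1‖ ^ 2 := by
    apply intervalIntegral.integral_mono_interval (by linarith) hT12T (by linarith)
    · exact Filter.Eventually.of_forall fun v => by positivity
    · exact hcE2.intervalIntegrable _ _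
  have hX : (M : ℝ) ^ (-(1 / 4) : ℝ) ≤ L ^ (-(B + 1)) := by
    have h1 : (M : ℝ) ^ (-(1 / 4) : ℝ) ≤ (L ^ b) ^ (-(1 / 4) : ℝ) :=
      Real.rpow_le_rpow_of_nonpos (by positivity) hMge (by norm_num)
    refine h1.trans (le_of_eq ?_)
    rw [← Real.rpow_mul hL0.le]
    congr 1
    rw [hb]; ring
  have hlogM2 : (1 + Real.log M) ^ 2 / M ≤ 25 * (M : ℝ) ^ (-(1 / 4) : ℝ) := by
    have h1 : Real.log M ≤ (M : ℝ) ^ (1 / 4 : ℝ) / (1 / 4) := Real.log_le_rpow_div hM0r.le (by norm_num)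
    have h2 : 1 ≤ (M : ℝ) ^ (1 / 4 : ℝ) := Real.one_le_rpow hM1r (by norm_num)
    have h3 : 1 + Real.log M ≤ 5 * (M : ℝ) ^ (1 / 4 : ℝ) := by linarith
    have h4 : (1 + Real.log M) ^ 2 ≤ (5 * (M : ℝ) ^ (1 / 4 : ℝ)) ^ 2 :=
      pow_le_pow_left₀ (by linarith) h3 2
    rw [div_le_iff₀ hM0r]
    refine h4.trans ?_
    have h5 : (5 * (M : ℝ) ^ (1 / 4 : ℝ)) ^ 2 = 25 * (M : ℝ) ^ (1 / 2 : ℝ) := by
      rw [mul_pow, ← Real.rpow_natCast ((M : ℝ) ^ (1 / 4 : ℝ)), ← Real.rpow_mul hM0r.le]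
      norm_num
    have h6 : 25 * (M : ℝ) ^ (-(1 / 4) : ℝ) * M = 25 * (M : ℝ) ^ (3 / 4 : ℝ) := by
      nth_rewrite 2 [← Real.rpow_one (M : ℝ)]
      rw [mul_assoc, ← Real.rpow_add hM0r]
      norm_num
    rw [h5, h6]
    exact mul_le_mul_of_nonneg_left (Real.rpow_le_rpow_of_exponent_le hM1r (by norm_num)) (by norm_num)
  have hfin : (1 / 8 : ℝ) * volume.real (Ex ε T) ≤ (25 * C1 + C2) * (T * (M : ℝ) ^ (-(1 / 4) : ℝ)) := by
    refine hmain.trans ?_
    rw [hsplit]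
    have h1 : (1 + Real.log M) ^ 2 *
        (∫ v in (T ^ (1 / 2 : ℝ))..T, ‖riemannZeta (1 + I * (v : ℂ)) - zN M (1 + I * v)‖ ^ 2) ≤
        25 * C1 * (T * (M : ℝ) ^ (-(1 / 4) : ℝ)) := by
      calc (1 + Real.log M) ^ 2 *
        (∫ v in (T ^ (1 / 2 : ℝ))..T, ‖riemannZeta (1 + I * (v : ℂ)) - zN M (1 + I * v)‖ ^ 2) ≤
          (1 + Real.log M) ^ 2 * (C1 * T / M) := mul_le_mul_of_nonneg_left hE1 (sq_nonneg _)
        _ = C1 * T * ((1 + Real.log M) ^ 2 / M) := by ring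
        _ ≤ C1 * T * (25 * (M : ℝ) ^ (-(1 / 4) : ℝ)) := mul_le_mul_of_nonneg_left hlogM2 (by positivity)
        _ = _ := by ring
    have h2 := hmono.trans hE2
    calc _ ≤ 25 * C1 * (T * (M : ℝ) ^ (-(1 / 4) : ℝ)) + C2 * T * (M : ℝ) ^ (-(1 / 4) : ℝ) := add_le_add h1 h2
      _ = _ := by ring
  have h8 : volume.real (Ex ε T) ≤ 8 * (25 * C1 + C2) * (T * (M : ℝ) ^ (-(1 / 4) : ℝ)) := by linarith
  refine h8.trans ?_
  have h9 : 8 * (25 * C1 + C2) * (T * (M : ℝ) ^ (-(1 / 4) : ℝ)) ≤ L * (T * L ^ (-(B + 1))) :=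
    mul_le_mul g4 (mul_le_mul_of_nonneg_left hX hTpos.le) (by positivity) hL0.le
  refine h9.trans (le_of_eq ?_)
  have h10 : L * L ^ (-(B + 1)) = L ^ (-B) := by
    nth_rewrite 1 [← Real.rpow_one L]
    rw [← Real.rpow_add hL0]
    congr 1; ring
  rw [← h10]; ring

end

end Pool.Agent.Y745.ZR
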