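import Pool.Agent.TH928.GS.MV
import Pool.Agent.TH811.GS.One
import Pool.Agent.H353R2.Z2

set_option autoImplicit false

/-! Small values of the zeta function on the 1-line: a measure bound. -/

namespace Pool.Agent.Y745.ZR

open Complex MeasureTheory Filter Topology Set
open Pool.Agent.TH612.GS Pool.Agent.TH811.GS

noncomputable section

/-- the coefficients of the product -/
def cM (M n : ℕ) : ℤ := ∑ x ∈ (Finset.Icc 1 M ×ˢ Finset.Icc 1 M).filter (fun x => x.1 * x.2 = n),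
  ArithmeticFunction.moebius x.2

/-- the mollifier -/
def muN (M : ℕ) (s : ℂ) : ℂ := ∑ n ∈ Finset.Icc 1 M, ((ArithmeticFunction.moebius n : ℤ) : ℂ) * (n : ℂ) ^ (-s)

lemma prod_eq (M : ℕ) (s : ℂ) :
    zN M s * muN M s = ∑ n ∈ Finset.Icc 1 (M ^ 2), (cM M n : ℂ) * (n : ℂ) ^ (-s) := by
  unfold zN muN
  rw [Finset.sum_mul_sum, ← Finset.sum_product']
  have hmap : ∀ x ∈ Finset.Icc 1 M ×ˢ Finset.Icc 1 M, x.1 * x.2 ∈ Finset.Icc 1 (M ^ 2) := by
    intro x hx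
    rw [Finset.mem_product, Finset.mem_Icc, Finset.mem_Icc] at hx
    rw [Finset.mem_Icc]
    constructor
    · exact Nat.mul_pos hx.1.1 hx.2.1
    · rw [sq]; exact Nat.mul_le_mul hx.1.2 hx.2.2
  rw [← Finset.sum_fiberwise_of_maps_to hmap]
  refine Finset.sum_congr rfl fun n _ => ?_
  unfold cM
  push_cast
  rw [Finset.sum_mul]
  refine Finset.sum_congr rfl fun x hx => ?_
  rw [Finset.mem_filter] at hx
  rw [← hx.2, Nat.cast_mul, Complex.natCast_mul_natCast_cpow]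
  ring

lemma filt_eq {M n : ℕ} (h1 : 1 ≤ n) (hn : n ≤ M) :
    (Finset.Icc 1 M ×ˢ Finset.Icc 1 M).filter (fun x => x.1 * x.2 = n) = n.divisorsAntidiagonal := by
  ext x
  rw [Finset.mem_filter, Finset.mem_product, Finset.mem_Icc, Finset.mem_Icc, Nat.mem_divisorsAntidiagonal]
  constructor
  · rintro ⟨-, h⟩
    exact ⟨h, by omega⟩
  · rintro ⟨h, -⟩
    have h0 : x.1 ≠ 0 := by rintro h0; rw [h0] at h; omega
    have h0' : x.2 ≠ 0 := by rintro h0; rw [h0] at h; omega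
    have h2 : x.1 ≤ n := by rw [← h]; exact Nat.le_mul_of_pos_right _ (by omega)
    have h3 : x.2 ≤ n := by rw [← h]; exact Nat.le_mul_of_pos_left _ (by omega)
    exact ⟨⟨⟨by omega, by omega⟩, ⟨by omega, by omega⟩⟩, h⟩

lemma cM_small {M n : ℕ} (h1 : 1 ≤ n) (hn : n ≤ M) : cM M n = if n = 1 then 1 else 0 := by
  unfold cM
  rw [filt_eq h1 hn]
  have h := congrArg (fun f : ArithmeticFunction ℤ => f n) ArithmeticFunction.coe_zeta_mul_moebius
  simp only [ArithmeticFunction.mul_apply, ArithmeticFunction.one_apply] at h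
  rw [← h]
  refine Finset.sum_congr rfl fun x hx => ?_
  have h0 : x.1 ≠ 0 := by
    rintro h0
    rw [Nat.mem_divisorsAntidiagonal, h0] at hx
    omega
  rw [ArithmeticFunction.natCoe_apply, ArithmeticFunction.zeta_apply, if_neg h0]
  simp

lemma cM_le {M n : ℕ} (hn : n ≠ 0) : |(cM M n : ℝ)| ≤ (n.divisors.card : ℝ) := by
  unfold cM
  push_cast
  refine (Finset.abs_sum_le_sum_abs _ _).trans ?_
  calc ∑ x ∈ (Finset.Icc 1 M ×ˢ Finset.Icc 1 M).filter (fun x => x.1 * x.2 = n),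
        |((ArithmeticFunction.moebius x.2 : ℤ) : ℝ)|
      ≤ ∑ x ∈ (Finset.Icc 1 M ×ˢ Finset.Icc 1 M).filter (fun x => x.1 * x.2 = n), (1 : ℝ) := by
        refine Finset.sum_le_sum fun x _ => ?_
        have := ArithmeticFunction.abs_moebius_le_one (n := x.2)
        exact_mod_cast this
    _ = (((Finset.Icc 1 M ×ˢ Finset.Icc 1 M).filter (fun x => x.1 * x.2 = n)).card : ℝ) := by
        rw [Finset.sum_const, nsmul_eq_mul, mul_one]
    _ ≤ (n.divisors.card : ℝ) := by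
        have h : ((Finset.Icc 1 M ×ˢ Finset.Icc 1 M).filter (fun x => x.1 * x.2 = n)).card ≤
            n.divisorsAntidiagonal.card := by
          apply Finset.card_le_card
          intro x hx
          rw [Finset.mem_filter] at hx
          rw [Nat.mem_divisorsAntidiagonal]
          exact ⟨hx.2, hn⟩
        have h2 : n.divisorsAntidiagonal.card = n.divisors.card := by
          rw [← Nat.map_div_right_divisors, Finset.card_map]
        rw [h2] at h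
        exact_mod_cast h

/-- the coefficients of the error -/
def aM (M n : ℕ) : ℂ := if n ≤ M then 0 else (cM M n : ℂ) * (n : ℂ)⁻¹

lemma err_eq {M : ℕ} (hM : 1 ≤ M) (v : ℝ) :
    zN M (1 + I * v) * muN M (1 + I * v) - 1 =
      ∑ n ∈ Finset.Icc 1 (M ^ 2), aM M n * (n : ℂ) ^ (-(I * (v : ℂ))) := by
  rw [prod_eq]
  have h1 : (1 : ℂ) = ∑ n ∈ Finset.Icc 1 (M ^ 2), (if n = 1 then (1 : ℂ) else 0) := by
    rw [Finset.sum_ite_eq' (Finset.Icc 1 (M ^ 2)) 1 (fun _ => (1 : ℂ)), if_pos]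
    rw [Finset.mem_Icc]
    exact ⟨le_rfl, Nat.one_le_pow _ _ hM⟩
  rw [h1, ← Finset.sum_sub_distrib]
  rw [← h1]
  refine Finset.sum_congr rfl fun n hn => ?_
  rw [Finset.mem_Icc] at hn
  have hn0 : (n : ℂ) ≠ 0 := by
    have : n ≠ 0 := by omega
    exact_mod_cast this
  have e1 : (n : ℂ) ^ (-(1 + I * (v : ℂ))) = (n : ℂ)⁻¹ * (n : ℂ) ^ (-(I * (v : ℂ))) := by
    rw [neg_add, Complex.cpow_add _ _ hn0, Complex.cpow_neg_one]
  rw [e1]
  unfold aM
  split_ifs with h2 h3 h3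
  · rw [cM_small hn.1 h3, if_pos h2, h2]
    simp
  · exfalso; omega
  · rw [cM_small hn.1 h3, if_neg h2]
    simp
  · ring

lemma norm_muN_le (X : ℕ) (v : ℝ) : ‖muN X (1 + I * v)‖ ≤ 1 + Real.log X := by
  unfold muN
  refine (norm_sum_le _ _).trans ((Finset.sum_le_sum fun n hn => ?_).trans (harm_le X))
  rw [Finset.mem_Icc] at hn
  rw [norm_mul, norm_term hn.1]
  have h1 : ‖((ArithmeticFunction.moebius n : ℤ) : ℂ)‖ ≤ 1 := by
    rw [Complex.norm_intCast]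
    have := ArithmeticFunction.abs_moebius_le_one (n := n)
    exact_mod_cast this
  have h2 : 0 ≤ ((n : ℝ))⁻¹ := by positivity
  nlinarith

/-- the mean square of the error -/
lemma err_ms : ∃ C : ℝ, 0 < C ∧ ∀ (T : ℝ) (M : ℕ), 1 ≤ T → 1 ≤ M → (M : ℝ) ^ 2 ≤ T →
    ∫ v in (0:ℝ)..(2 * T), ‖zN M (1 + I * v) * muN M (1 + I * v) - 1‖ ^ 2 ≤ C * T * (M : ℝ) ^ (-(1 / 4) : ℝ) := by
  obtain ⟨C, hC, hMV⟩ := Pool.Agent.TH928.GS.t_MV
  obtain ⟨D, hD, hdiv⟩ := H353.divisor_bound_real (1 / 4) (by norm_num)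
  have hsm : Summable (fun n : ℕ => (n : ℝ) ^ (-(5 / 4) : ℝ)) := Real.summable_nat_rpow.2 (by norm_num)
  set K := ∑' n : ℕ, (n : ℝ) ^ (-(5 / 4) : ℝ) with hK
  have hK0 : 0 ≤ K := tsum_nonneg fun n => by positivity
  refine ⟨C * (2 * (D ^ 2 * K)) + 1, by positivity, fun T M hT hM hMT => ?_⟩
  have hM0 : (0:ℝ) < M := by exact_mod_cast hM
  have hT0 : 0 < T := by linarith
  simp_rw [err_eq hM]
  refine (hMV T (M ^ 2) (aM M) hT (by push_cast; nlinarith)).trans ?_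
  have h1 : ∑ n ∈ Finset.Icc 1 (M ^ 2), (T + n) * ‖aM M n‖ ^ 2 ≤
      ∑ n ∈ Finset.Icc 1 (M ^ 2), 2 * T * (D ^ 2 * (M : ℝ) ^ (-(1 / 4) : ℝ)) * (n : ℝ) ^ (-(5 / 4) : ℝ) := by
    refine Finset.sum_le_sum fun n hn => ?_
    rw [Finset.mem_Icc] at hn
    have hn0 : (0:ℝ) < n := by exact_mod_cast hn.1
    have hnT : (n : ℝ) ≤ T := by
      have : (n : ℝ) ≤ ((M ^ 2 : ℕ) : ℝ) := by exact_mod_cast hn.2
      push_cast at this
      linarith
    have h2 : ‖aM M n‖ ^ 2 ≤ D ^ 2 * (M : ℝ) ^ (-(1 / 4) : ℝ) * (n : ℝ) ^ (-(5 / 4) : ℝ) := by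
      unfold aM
      split_ifs with h3
      · rw [norm_zero]
        have : (0:ℝ) ≤ D ^ 2 * (M : ℝ) ^ (-(1 / 4) : ℝ) * (n : ℝ) ^ (-(5 / 4) : ℝ) := by positivity
        simpa using this
      · push Not at h3
        have hMn : (M : ℝ) ≤ n := by exact_mod_cast h3.le
        rw [norm_mul, norm_inv, Complex.norm_intCast, Complex.norm_natCast]
        have h4 : |(cM M n : ℝ)| ≤ D * (n : ℝ) ^ (1 / 4 : ℝ) :=
          (cM_le (by omega)).trans (hdiv n (by omega))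
        have h5 : |(cM M n : ℝ)| * (n : ℝ)⁻¹ ≤ D * (n : ℝ) ^ (-(3 / 4) : ℝ) := by
          calc |(cM M n : ℝ)| * (n : ℝ)⁻¹ ≤ D * (n : ℝ) ^ (1 / 4 : ℝ) * (n : ℝ)⁻¹ :=
                mul_le_mul_of_nonneg_right h4 (by positivity)
            _ = D * (n : ℝ) ^ (-(3 / 4) : ℝ) := by
                rw [mul_assoc, ← Real.rpow_neg_one (n : ℝ), ← Real.rpow_add hn0]
                norm_num
        have h6 : (|(cM M n : ℝ)| * (n : ℝ)⁻¹) ^ 2 ≤ (D * (n : ℝ) ^ (-(3 / 4) : ℝ)) ^ 2 :=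
          pow_le_pow_left₀ (by positivity) h5 2
        refine h6.trans ?_
        have h7 : ((n : ℝ) ^ (-(3 / 4) : ℝ)) ^ 2 = (n : ℝ) ^ (-(1 / 4) : ℝ) * (n : ℝ) ^ (-(5 / 4) : ℝ) := by
          rw [← Real.rpow_natCast, ← Real.rpow_mul hn0.le, ← Real.rpow_add hn0]
          norm_num
        rw [mul_pow, h7, ← mul_assoc]
        refine mul_le_mul_of_nonneg_right ?_ (by positivity)
        refine mul_le_mul_of_nonneg_left ?_ (by positivity)
        exact Real.rpow_le_rpow_of_nonpos hM0 hMn (by norm_num)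
    calc (T + n) * ‖aM M n‖ ^ 2 ≤ (2 * T) * (D ^ 2 * (M : ℝ) ^ (-(1 / 4) : ℝ) * (n : ℝ) ^ (-(5 / 4) : ℝ)) := by
          refine mul_le_mul (by linarith) h2 (by positivity) (by linarith)
      _ = _ := by ring
  have h2 : ∑ n ∈ Finset.Icc 1 (M ^ 2), 2 * T * (D ^ 2 * (M : ℝ) ^ (-(1 / 4) : ℝ)) * (n : ℝ) ^ (-(5 / 4) : ℝ) ≤
      2 * T * (D ^ 2 * (M : ℝ) ^ (-(1 / 4) : ℝ)) * K := by
    rw [← Finset.mul_sum]
    refine mul_le_mul_of_nonneg_left ?_ (by positivity)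
    exact hsm.sum_le_tsum _ fun n _ => by positivity
  have h3 := mul_le_mul_of_nonneg_left (h1.trans h2) hC.le
  have h4 : 0 ≤ T * (M : ℝ) ^ (-(1 / 4) : ℝ) := by positivity
  calc C * ∑ n ∈ Finset.Icc 1 (M ^ 2), (T + n) * ‖aM M n‖ ^ 2 ≤
      C * (2 * T * (D ^ 2 * (M : ℝ) ^ (-(1 / 4) : ℝ)) * K) := h3
    _ = C * (2 * (D ^ 2 * K)) * (T * (M : ℝ) ^ (-(1 / 4) : ℝ)) := by ring
    _ ≤ C * (2 * (D ^ 2 * K)) * (T * (M : ℝ) ^ (-(1 / 4) : ℝ)) + T * (M : ℝ) ^ (-(1 / 4) : ℝ) := by linarith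
    _ = _ := by ring

end

end Pool.Agent.Y745.ZR
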